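import Pool.Agent.helper55.FLD.Spec

/-!
# FLD (MP_2e0e07_nt), row OG: a small open subgroup
-/

namespace Pool.Agent.FLD

open Matrix Topology Filter Pool.Agent.GO Pool.Agent.AR

theorem OG : OG_stmt := by
  intro p _ B _ _ _ _ _ _ R hL G _ _ _ Φ hΦ k
  refine ⟨{ carrier := {g | Dv p R k (Φ g - 1) ∧ Dv p R k (Φ g⁻¹ - 1)}
            mul_mem' := ?_
            one_mem' := ?_
            inv_mem' := ?_ }, ?_, ?_⟩
  · rintro a b ⟨ha, ha'⟩ ⟨hb, hb'⟩
    refine ⟨?_, ?_⟩
    · rw [map_mul]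
      exact ha.mul_one_sub hb
    · rw [_root_.mul_inv_rev, map_mul]
      exact hb'.mul_one_sub ha'
  · refine ⟨?_, ?_⟩
    · rw [map_one, sub_self]
      exact Dv.zero k
    · rw [inv_one, map_one, sub_self]
      exact Dv.zero k
  · rintro a ⟨ha, ha'⟩
    refine ⟨ha', ?_⟩
    rw [inv_inv]
    exact ha
  · have h1 : IsOpen {g : G | Dv p R k (Φ g - 1)} :=
      (hL.isOpen_dv k).preimage (hΦ.sub continuous_const)
    have h2 : IsOpen {g : G | Dv p R k (Φ g⁻¹ - 1)} :=
      (hL.isOpen_dv k).preimage ((hΦ.comp continuous_inv).sub continuous_const)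
    exact h1.inter h2
  · intro g hg
    exact hg.1

end Pool.Agent.FLD
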